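import Pool.Agent.TH997.US.Stm

/-!
# Piece Dc of project US: an integer polynomial with the values `m! ∑ C(n, j) x_j`
-/

set_option autoImplicit false

namespace Pool.Agent.Helper33.US

open Polynomial Finset

lemma coeff_desc (j i : ℕ) : |(descPochhammer ℤ j).coeff i| ≤ (j.factorial : ℤ) := by
  induction j generalizing i with
  | zero =>
    rw [descPochhammer_zero, Polynomial.coeff_one, Nat.factorial_zero]
    split_ifs <;> simp
  | succ j ih =>
    rw [descPochhammer_succ_right]
    have e : (descPochhammer ℤ j * (X - (j : ℤ[X]))).coeff i =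
        (descPochhammer ℤ j * X).coeff i - (descPochhammer ℤ j).coeff i * j := by
      rw [mul_sub, Polynomial.coeff_sub, ← Polynomial.C_eq_natCast, Polynomial.coeff_mul_C]
    rw [e]
    have h1 : |(descPochhammer ℤ j * X).coeff i| ≤ (j.factorial : ℤ) := by
      cases i with
      | zero => simp
      | succ i => rw [Polynomial.coeff_mul_X]; exact ih i
    have h2 : |(descPochhammer ℤ j).coeff i * j| ≤ (j.factorial : ℤ) * j := by
      rw [abs_mul, Nat.abs_cast]
      exact mul_le_mul_of_nonneg_right (ih i) (Nat.cast_nonneg j)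
    calc _ ≤ |(descPochhammer ℤ j * X).coeff i| + |(descPochhammer ℤ j).coeff i * j| :=
          abs_sub _ _
      _ ≤ (j.factorial : ℤ) + (j.factorial : ℤ) * j := add_le_add h1 h2
      _ = ((j + 1).factorial : ℤ) := by rw [Nat.factorial_succ]; push_cast; ring

theorem t_Dc : Pool.Agent.TH997.US.Dc := by
  intro m x
  have hdiv : ∀ j < m, ((m.factorial / j.factorial : ℕ) : ℤ) * (j.factorial : ℤ) =
      (m.factorial : ℤ) := by
    intro j hj
    rw [← Nat.cast_mul, Nat.div_mul_cancel (Nat.factorial_dvd_factorial hj.le)]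
  refine ⟨∑ j ∈ Finset.range m, C (((m.factorial / j.factorial : ℕ) : ℤ) * x j) *
    descPochhammer ℤ j, ?_, ?_, ?_⟩
  · refine Polynomial.natDegree_sum_le_of_forall_le _ _ ?_
    intro j hj
    refine (Polynomial.natDegree_C_mul_le _ _).trans ?_
    rw [descPochhammer_natDegree]
    have := Finset.mem_range.1 hj
    omega
  · intro n
    rw [Polynomial.eval_finsetSum, Finset.mul_sum]
    refine Finset.sum_congr rfl fun j hj => ?_
    rw [Polynomial.eval_mul, Polynomial.eval_C, descPochhammer_eval_eq_descFactorial,
      Nat.descFactorial_eq_factorial_mul_choose, Nat.cast_mul]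
    have h := hdiv j (Finset.mem_range.1 hj)
    generalize ((m.factorial / j.factorial : ℕ) : ℤ) = q at h ⊢
    rw [← h]
    ring
  · intro i
    rw [Polynomial.finsetSum_coeff]
    refine (Finset.abs_sum_le_sum_abs _ _).trans (Finset.sum_le_sum fun j hj => ?_)
    rw [Polynomial.coeff_C_mul, abs_mul, abs_mul, Nat.abs_cast]
    calc ((m.factorial / j.factorial : ℕ) : ℤ) * |x j| * |(descPochhammer ℤ j).coeff i|
        ≤ ((m.factorial / j.factorial : ℕ) : ℤ) * |x j| * (j.factorial : ℤ) := by
          refine mul_le_mul_of_nonneg_left (coeff_desc j i) ?_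
          positivity
      _ = (m.factorial : ℤ) * |x j| := by
          rw [← hdiv j (Finset.mem_range.1 hj)]; ring

end Pool.Agent.Helper33.US
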